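import Mathlib
import Pool.Agent.R259.Crit

set_option autoImplicit false

namespace Pool.Agent.Results.MP_6fe4ed_an.NoCriticalPoints

/-- The real entire function `f_{ν,n}(x) = ∑ Γ(2m+ν+1) x^m / (m! Γ(m+ν+1) Γ(2m+ν-n+1))`. -/
noncomputable def f (ν : ℝ) (n : ℕ) (x : ℝ) : ℝ :=
  ∑' m : ℕ, Real.Gamma (2 * m + ν + 1) /
    (m.factorial * Real.Gamma (m + ν + 1) * Real.Gamma (2 * m + ν - n + 1)) * x ^ m

/-- `c` is a zero of the derivative `f^(l)` of multiplicity exactly `m ≥ 1`. -/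
def ZeroOfOrder (f : ℝ → ℝ) (l m : ℕ) (c : ℝ) : Prop :=
  1 ≤ m ∧ (∀ j < m, iteratedDeriv (l + j) f c = 0) ∧ iteratedDeriv (l + m) f c ≠ 0

/-- The number `k` of critical zeros among the `m` zeros of `f^(l)` at `c`. -/
noncomputable def crit (f : ℝ → ℝ) (l m : ℕ) (c : ℝ) : ℕ :=
  if iteratedDeriv (l - 1) f c = 0 then 0
  else if Even m then m / 2
  else if 0 < iteratedDeriv (l - 1) f c * iteratedDeriv (l + m) f c then (m + 1) / 2
  else (m - 1) / 2

/-- `c` is a Fourier critical point of `f`: it carries a critical zero of some `f^(l)`, `l ≥ 1`. -/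
def FourierCritical (f : ℝ → ℝ) (c : ℝ) : Prop :=
  ∃ l m : ℕ, 1 ≤ l ∧ ZeroOfOrder f l m c ∧ 0 < crit f l m c

/-- For `ν ∈ [-2.1, -2)` the function `f_{ν,1}` has no Fourier critical point at all. -/
theorem result : ∀ ν : ℝ, -(21 / 10) ≤ ν → ν < -2 → ∀ c : ℝ, ¬ FourierCritical (f ν 1) c := by
  intro ν h1 h2 c
  have hν : ∀ k : ℤ, ν ≠ k := by
    intro k hk
    rw [hk] at h1 h2
    have h3 : k < -2 := by exact_mod_cast h2
    have h4 : (k : ℝ) ≤ -3 := by exact_mod_cast (by omega : k ≤ -3)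
    linarith
  obtain ⟨P, hP, hc, hpos, hneg⟩ := Pool.Agent.R259.mainA h1 h2
  set F : ℂ → ℂ := fun z : ℂ => ∑' m : ℕ, (((2 * m + ν) /
    (m.factorial * Real.Gamma (m + ν + 1)) : ℝ) : ℂ) * z ^ m with hF
  have hf : ∀ x : ℝ, f ν 1 x = (F x).re := by
    intro x
    rw [hF, ← Pool.Agent.R259.re_tsum_real]
    unfold f
    refine tsum_congr fun m => ?_
    rw [Pool.Agent.R259.gamma_coef hν]
  have hn : ∀ k, iteratedDeriv k F 0 ≠ 0 := by
    intro k
    rw [hP.iter_zero k (hc k)]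
    have hk : (2 * (k : ℝ) + ν) / (k.factorial * Real.Gamma (k + ν + 1)) ≠ 0 := by
      rcases Nat.eq_zero_or_pos k with rfl | hk
      · exact hneg.ne
      · exact (hpos k hk.ne').ne'
    have hfac : (k.factorial : ℝ) ≠ 0 := by positivity
    exact_mod_cast mul_ne_zero hfac hk
  rintro ⟨l, m, hl, ⟨hm1, hm2, hm3⟩, hcr⟩
  obtain ⟨l, rfl⟩ : ∃ j, l = j + 1 := ⟨l - 1, by omega⟩
  unfold crit at hcr
  rw [Nat.add_sub_cancel] at hcr
  split_ifs at hcr with a1 a2 a3
  · exact absurd hcr (lt_irrefl _)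
  all_goals
    have h0 := hm2 0 (by omega)
    rw [add_zero] at h0
    have h3 := hP.no_crit hf hn c h0 a1
  · have h4 : 1 < m := by
      rcases a2 with ⟨r, hr⟩
      omega
    have h5 := hm2 1 h4
    rw [show l + 1 + 1 = l + 2 by ring] at h5
    rw [h5, mul_zero] at h3
    exact lt_irrefl _ h3
  · rcases Nat.lt_or_ge 1 m with h4 | h4
    · have h5 := hm2 1 h4
      rw [show l + 1 + 1 = l + 2 by ring] at h5
      rw [h5, mul_zero] at h3
      exact lt_irrefl _ h3
    · have : m = 1 := by omega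
      subst this
      rw [show l + 1 + 1 = l + 2 by ring] at a3
      linarith
  · rcases Nat.lt_or_ge 1 m with h4 | h4
    · have h5 := hm2 1 h4
      rw [show l + 1 + 1 = l + 2 by ring] at h5
      rw [h5, mul_zero] at h3
      exact lt_irrefl _ h3
    · omega

/-- The statement asked about in Q1 fails (take `n = 1`, `s = 1`, `ν = -2.1`, where one Fourier
critical point is predicted). -/
lemma negation : ¬ ∀ (n s : ℕ) (ν : ℝ), (n : ℝ) - 2 * s - 2 < ν → ν < (n : ℝ) - 2 * s - 1 →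
    {c : ℝ | FourierCritical (f ν n) c}.ncard = s ∧ {x : ℝ | 0 < x ∧ f ν n x = 0}.ncard = 1 := by
  intro h
  have h1 := (h 1 1 (-(21 / 10)) (by norm_num) (by norm_num)).1
  have h2 : {c : ℝ | FourierCritical (f (-(21 / 10)) 1) c} = ∅ := by
    ext c
    simp only [Set.mem_setOf_eq, Set.mem_empty_iff_false, iff_false]
    exact result _ le_rfl (by norm_num) c
  rw [h2] at h1
  simp at h1

end Pool.Agent.Results.MP_6fe4ed_an.NoCriticalPoints
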